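import Pool.Agent.Helper12.WG.G

/-! # Level one for almost all divisors with two further components

`X = ℙ¹_ℤ ∖ (∞ ∪ V(f))`. Let `g` be monic of degree `a ≥ 1` and `b ≥ 1`. Of the `(2H+1)^b` monic polynomials `h` of
degree `b` with coefficients in `[-H, H]`, all but at most `a ((4ab)!)^2 (2H+1)^(b-2)` of those coprime to `g` have the
following property: for EVERY monic `f` divisible by `g` and `h` and for ALL primes `p`, the set `X(ℤ_p)_1` of the weakly
global points of level one is `X(ℤ)`.

The proof. If `z` is a weakly global point of level one, then `g(z)` and `h(z)` are roots of unity, and `z` is a root of a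
nonzero polynomial of degree at most `2ab` (elimination with the argument of Beukers and Smyth, `TwoMoreComponents`), so
that the orders divide `(4ab)!`. So there is an algebraic integer `t`, conjugate to `z`, at which `g` and `h` have values of
order dividing `(4ab)!`. For fixed `g` there are at most `a ((4ab)!)^2` pairs `(t, h(t))`; if `t` is not an integer, then
`1, t` are linearly independent over `ℚ`, and `h(t)` and the coefficients of `h` of index at least two determine `h`. -/

set_option autoImplicit false

open Polynomial

namespace Pool.Agent.Results.MP_fd87b4_nt.AlmostAllDivisors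

open LevelOneForTheLine (Level1 IntPts Settled)

/-- Level one is exact, for all primes, for the line minus infinity and `V(f)`, for all monic `f` divisible by `g` and
`h`. -/
def ExactForAll (g h : ℤ[X]) : Prop :=
  ∀ f : ℤ[X], f.Monic → g ∣ f → h ∣ f → ∀ (p : ℕ) [Fact p.Prime], Settled p f

/-- **Level one is exact for almost all divisors with two further components.** For all monic `g` of degree `a ≥ 1`, all
`b ≥ 1` and all `H`: all but at most `a ((4ab)!)^2 (2H+1)^(b-2)` of the monic `h` of degree `b` with coefficients in
`[-H, H]` which are coprime to `g` are such that `X(ℤ_p)_1 = X(ℤ)` for ALL primes `p` and ALL monic `f` divisible by `g`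
and `h`. -/
theorem result (g : ℤ[X]) (hg : g.Monic) (ha : 0 < g.natDegree) (b : ℕ) (hb : 1 ≤ b) (H : ℕ) :
    {h : ℤ[X] | h.Monic ∧ h.natDegree = b ∧ (∀ i < b, |h.coeff i| ≤ H) ∧
      IsCoprime (g.map (Int.castRingHom ℚ)) (h.map (Int.castRingHom ℚ)) ∧ ¬ ExactForAll g h}.ncard ≤
      g.natDegree * ((4 * (g.natDegree * b)).factorial) ^ 2 * (2 * H + 1) ^ (b - 2) := by
  obtain ⟨h1, h2⟩ := Pool.Agent.Helper12.WG.torsion_count hg ha b H
    ((4 * (g.natDegree * b)).factorial) (Nat.factorial_pos _)
  refine (Set.ncard_le_ncard ?_ h1).trans h2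
  rintro h ⟨h3, h4, h5, h6, h7⟩
  refine ⟨h3, h4, h5, ?_⟩
  by_contra hne
  push Not at hne
  refine h7 fun f hf hgf hhf p _ => ?_
  refine Pool.Agent.Helper12.WG.settled_of_torsion hf hg h3 ha (by omega) h6 hgf hhf fun t ht1 ht2 => ?_
  rw [h4] at ht1 ht2
  exact hne t ht1 ht2

end Pool.Agent.Results.MP_fd87b4_nt.AlmostAllDivisors
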