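import Pool.Agent.Helper12.WG.F

/-!
# The weakly global points of level one for the line minus sections and real quadratic components

`f ∈ ℤ[X]` monic, `𝒟 = ∞ ∪ V(f) ⊂ ℙ¹_ℤ`, `𝒳 = ℙ¹_ℤ ∖ 𝒟`. As explained in the starting file `LevelOneForTheLine`,
`𝒳(ℤ) = {x ∈ ℤ : f(x) = ± 1}` (`IntPts f`), and `𝒳(ℤ_p)_1` is the set `Level1 p f` of the `z ∈ ℤ_p` with `f(z) ∈ ℤ_p^×`
such that a power of `z - X` is in the closure of `(ℤ[X]/(f))^×` in `(ℤ_p[X]/(f))^×`; `Settled p f`: `𝒳(ℤ_p)_1 = 𝒳(ℤ)`,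
that is Q1 with `N = 1`.

* Let `f = f_1 ⋯ f_r`, where the `f_i` are pairwise coprime, and each `f_i` is `X - a` or `X² + b X + c` with `b² - 4 c > 0`
  not a square. For all odd `p`: `𝒳(ℤ_p)_1` is the set of ALL `z ∈ ℤ_p` such that `f_1(z), …, f_r(z)` are roots of unity.
  (That these values are roots of unity is necessary for every `f`. If there is an imaginary quadratic component the set is
  `𝒳(ℤ)`, by the starting file; so level one is known for all the divisors with components of degrees one and two one of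
  which is a section.)
* Two components which differ by two: let `q = X² + b X + c`, such that `b² - 4 c - 8 > 0`, and `b² - 4 c`, `b² - 4 c - 8` are
  not squares. For `f = q (q + 2)` and all odd `p`: `𝒳(ℤ_p)_1 = {z ∈ ℤ_p : q(z) = -1}`. So `𝒳(ℤ_p)_1 = 𝒳(ℤ)` if and only
  if all the zeros of `q + 1` in `ℤ_p` are integers, for example if `p` does not split in the field of `q + 1`.
* For `f = (X² - 7) (X² - 5)` and all odd `p`: `𝒳(ℤ_p)_1 = {z ∈ ℤ_p : z² = 6}`, while `𝒳(ℤ) = ∅`; so there are infinitely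
  many primes `p` for which Q1 holds with `N = 1` and infinitely many for which it does not.

Proof. A power of `z - X` is congruent to one modulo a high power of `p` and has norm one at every component; the closure
of the powers of a unit of norm one of a real quadratic order contains a neighbourhood of one in the group of the elements
of norm one. Units for the single components which are congruent to one modulo a resultant are glued to units of
`ℤ[X]/(f)`.
-/

set_option autoImplicit false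

open Polynomial

namespace Pool.Agent.Results.MP_fd87b4_nt.ExactLevelOne

open LevelOneForTheLine (Level1 IntPts Settled)

/-- **Exact level one for sections and real quadratic components.** See the introduction of the file. -/
theorem result :
    (∀ (p : ℕ) [Fact p.Prime], p ≠ 2 → ∀ (r : ℕ) (f : Fin r → ℤ[X]),
      (∀ i, (∃ a : ℤ, f i = X - C a) ∨
        ∃ b c : ℤ, f i = X ^ 2 + C b * X + C c ∧ 0 < b ^ 2 - 4 * c ∧ ¬ IsSquare (b ^ 2 - 4 * c)) →
      (∀ i j, i ≠ j → IsCoprime ((f i).map (Int.castRingHom ℚ)) ((f j).map (Int.castRingHom ℚ))) →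
      Level1 p (∏ i, f i) = {z : ℤ_[p] | ∀ i, ∃ n : ℕ, 0 < n ∧ (aeval z (f i)) ^ n = 1}) ∧
    (∀ (p : ℕ) [Fact p.Prime], p ≠ 2 → ∀ b c : ℤ, 0 < b ^ 2 - 4 * (c + 2) → ¬ IsSquare (b ^ 2 - 4 * c) →
      ¬ IsSquare (b ^ 2 - 4 * (c + 2)) →
      Level1 p ((X ^ 2 + C b * X + C c) * (X ^ 2 + C b * X + C (c + 2))) =
        {z : ℤ_[p] | z ^ 2 + b * z + c = -1} ∧
      (Settled p ((X ^ 2 + C b * X + C c) * (X ^ 2 + C b * X + C (c + 2))) ↔
        ∀ z : ℤ_[p], z ^ 2 + b * z + c = -1 → ∃ x : ℤ, z = x)) ∧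
    (∀ (p : ℕ) [Fact p.Prime], p ≠ 2 →
      Level1 p ((X ^ 2 - C 7) * (X ^ 2 - C 5)) = {z : ℤ_[p] | z ^ 2 = 6} ∧
      (Settled p ((X ^ 2 - C 7) * (X ^ 2 - C 5)) ↔ ∀ z : ℤ_[p], z ^ 2 ≠ 6)) ∧
    IntPts ((X ^ 2 - C 7) * (X ^ 2 - C 5)) = ∅ ∧
    (∀ N : ℕ, ∃ p : ℕ, N < p ∧ ∃ _ : Fact p.Prime, ¬ Settled p ((X ^ 2 - C 7) * (X ^ 2 - C 5))) ∧
    ∀ N : ℕ, ∃ p : ℕ, N < p ∧ ∃ _ : Fact p.Prime, Settled p ((X ^ 2 - C 7) * (X ^ 2 - C 5)) :=
  ⟨fun p _ hp r f hf hco => Pool.Agent.Helper12.WG.level_eq hp f hf hco,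
    fun p _ hp b c h1 h2 h3 => Pool.Agent.Helper12.WG.pair_main hp h1 h2 h3,
    Pool.Agent.Helper12.WG.example_main⟩

end Pool.Agent.Results.MP_fd87b4_nt.ExactLevelOne
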