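import Pool.Agent.Helper12.WG.E

/-!
# Weakly global points of level one for the line minus a section and one real quadratic component

`f = X² + b X + c ∈ ℤ[X]` with `Δ = b² - 4 c > 0` not a square, `𝒟 = ∞ ∪ V(f) ⊂ ℙ¹_ℤ`, `𝒳 = ℙ¹_ℤ ∖ 𝒟` (kind (i) of the
problem: three complex points). As explained in the starting file `LevelOneForTheLine`,
`𝒳(ℤ) = {x ∈ ℤ : f(x) = ± 1}` (`IntPts f`), and `𝒳(ℤ_p)_1` is the set `Level1 p f` of the `z ∈ ℤ_p` with `f(z) ∈ ℤ_p^×`
such that a power of `z - X` is in the closure of `(ℤ[X]/(f))^×` in `(ℤ_p[X]/(f))^×`; `Settled p f`: `𝒳(ℤ_p)_1 = 𝒳(ℤ)`.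

For imaginary quadratic `f` (and all divisors which contain such a component) `𝒳(ℤ_p)_1 = 𝒳(ℤ)` for all `p`, by the
starting file. Here we show that this is never so for real quadratic components: for all odd primes `p`

* `𝒳(ℤ_p)_1 = {z ∈ ℤ_p : f(z) ^ (p - 1) = 1}`, that is, `f(z)` is a root of unity;
* it has at least `p - 3` and at most `2 (p - 1)` elements;
* for all `p ≥ 11` it is larger than `𝒳(ℤ)`, which has at most four elements: Q1 does not hold with `N = 1` (level two, or
  higher, is needed), for every real quadratic component and every prime `p ≥ 11`.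

Proof. The norm shows that `f(z)` is a root of unity. Conversely a power of `z - X` has norm one and is close to one, and
the closure of the powers of a unit `ε ≠ ± 1` of norm one contains a neighbourhood of one in the group of the elements of
norm one of `ℤ_p[X]/(f)` (successive approximation: for elements of norm one close to one the coefficient of `√Δ` is
almost additive). The lower bound is Hensel's lemma for `f ^ (p - 1) - 1`.
-/

set_option autoImplicit false

open Polynomial

namespace Pool.Agent.Results.MP_fd87b4_nt.OneRealQuadraticComponent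

open LevelOneForTheLine (Level1 Settled)

/-- **Level one for one real quadratic component.** For `f = X² + b X + c` with `b² - 4 c > 0` not a square and every odd
prime `p`: the set of the weakly global points of level one is `{z ∈ ℤ_p : f(z) ^ (p - 1) = 1}`, it has at least `p - 3`
and at most `2 (p - 1)` elements, and for `p ≥ 11` it is different from the set of the integral points. -/
theorem result (b c : ℤ) (hΔ : 0 < b ^ 2 - 4 * c) (hsq : ¬ IsSquare (b ^ 2 - 4 * c)) (p : ℕ) [Fact p.Prime]
    (hp : p ≠ 2) :
    Level1 p (X ^ 2 + C b * X + C c) = {z : ℤ_[p] | (z ^ 2 + b * z + c) ^ (p - 1) = 1} ∧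
    (Level1 p (X ^ 2 + C b * X + C c)).Finite ∧
    (Level1 p (X ^ 2 + C b * X + C c)).ncard ≤ 2 * (p - 1) ∧
    p ≤ (Level1 p (X ^ 2 + C b * X + C c)).ncard + 3 ∧
    (11 ≤ p → ¬ Settled p (X ^ 2 + C b * X + C c)) :=
  ⟨Pool.Agent.Helper12.WG.level_single hp hΔ hsq, Pool.Agent.Helper12.WG.single_main hp hΔ hsq⟩

end Pool.Agent.Results.MP_fd87b4_nt.OneRealQuadraticComponent
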