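import Pool.Agent.Helper12.WG.B

/-!
# Weakly global points of level one for the line minus a section and two or more further components

`f ∈ ℤ[X]` monic, `𝒟 = ∞ ∪ V(f) ⊂ ℙ¹_ℤ`, `𝒳 = ℙ¹_ℤ ∖ 𝒟` (kind (i) of the problem if `f` is squarefree of degree at least
two). As explained in the starting file `LevelOneForTheLine`, `𝒳(ℤ) = {z ∈ ℤ : f(z) ∈ ℤ^×}` (`IntPts f`), and `𝒳(ℤ_p)_1`
is the set `Level1 p f` of the `z ∈ ℤ_p` with `f(z) ∈ ℤ_p^×` such that a power of `z - X` is in the closure of
`(ℤ[X]/(f))^×` in `(ℤ_p[X]/(f))^×`; `Settled p f`: `𝒳(ℤ_p)_1 = 𝒳(ℤ)`, that is Q1 holds with `N = 1`.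

The starting file treats divisors which contain, besides `∞`, an imaginary quadratic component or a second section. Here
`𝒟` is any divisor with at least two components besides `∞`: `f` is divisible by two coprime monic polynomials `g`, `h` of
positive degrees. `result`:

* There is ONE nonzero polynomial `R ∈ ℤ[X]` of degree at most `2 deg g deg h` such that for ALL primes `p` all the
  points of `𝒳(ℤ_p)_1` are zeros of `R`. So the union of all the `𝒳(ℤ_p)_1` consists of the conjugates of finitely many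
  algebraic integers, `𝒳(ℤ_p)_1` has at most `2 deg g deg h` elements, uniformly in `p`, and Q1 holds with `N = 1` for
  all the `p` for which `R` has only integral zeros in `ℤ_p`.
* The values at a point of `𝒳(ℤ_p)_1` of all the monic divisors of `f` are roots of unity of orders `m` with
  `φ(m) ≤ 2 deg g deg h`; for the infinitely many `p ≡ 3 mod 4` with `p ≢ 1 mod q` for all odd primes
  `q ≤ 2 deg g deg h + 1` (for example `p = 3`) they are `± 1`, and Q1 holds with `N = 1` for these `p` if no other complex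
  numbers than integers have this property.
* For all primes `p` (and all monic `f` of positive degree) Q1 holds with `N = 1` if the only complex numbers at which the
  values of all the monic divisors of `f` are roots of unity are integers.
* For all monic `g`, `h` of positive degrees and all but finitely many integers `c`, for all `f` divisible by `g` and
  `h + c`: `𝒳(ℤ_p)_1 = 𝒳(ℤ) = ∅` for all primes `p`. If `h = g` this holds for all `|c| ≥ 3`; so for example for
  `f = (X² - 2) (X² - 5)`.

Proof. For `z ∈ 𝒳(ℤ_p)_1` the numbers `g(z)`, `h(z)` are roots of unity (norms), so `z` is algebraic; at the complex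
conjugates `t`, `t̄` of `z` one has `g(t) g(t̄) = 1` and `h(t) h(t̄) = 1`, and `R` is the resultant of `g(Z) g(w) - 1` and
`h(Z) h(w) - 1` with respect to `w`, which is not zero as `g` and `h` are coprime (let `Z → ∞`).
-/

set_option autoImplicit false

open Polynomial

namespace Pool.Agent.Results.MP_fd87b4_nt.TwoMoreComponents

open LevelOneForTheLine (Level1 IntPts Settled Good Ru)

/-- **Level one for the line minus a section and two or more further components.** See the introduction of the file. -/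
theorem result :
    (∀ f g h : ℤ[X], f.Monic → g.Monic → h.Monic → 0 < g.natDegree → 0 < h.natDegree →
      IsCoprime (g.map (Int.castRingHom ℚ)) (h.map (Int.castRingHom ℚ)) → g ∣ f → h ∣ f →
      -- one polynomial for all primes
      (∃ R : ℤ[X], R ≠ 0 ∧ R.natDegree ≤ 2 * (g.natDegree * h.natDegree) ∧
        ∀ (p : ℕ) [Fact p.Prime], (∀ z ∈ Level1 p f, aeval z R = 0) ∧
          ((∀ z : ℤ_[p], aeval z R = 0 → ∃ x : ℤ, z = x) → Settled p f)) ∧
      ∀ (p : ℕ) [Fact p.Prime],
        ((Level1 p f).Finite ∧ (Level1 p f).ncard ≤ 2 * (g.natDegree * h.natDegree)) ∧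
        -- the orders
        (∀ z ∈ Level1 p f, ∀ k : ℤ[X], k.Monic → k ∣ f →
          ∃ m : ℕ, 0 < m ∧ m.totient ≤ 2 * (g.natDegree * h.natDegree) ∧ IsPrimitiveRoot (aeval z k) m) ∧
        -- good primes
        (Good (g.natDegree * h.natDegree) p →
          (∀ z ∈ Level1 p f, ∀ k : ℤ[X], k.Monic → k ∣ f → aeval z k = 1 ∨ aeval z k = -1) ∧
          ((∀ t : ℂ, (∀ k : ℤ[X], k.Monic → k ∣ f → aeval t k = 1 ∨ aeval t k = -1) → ∃ x : ℤ, t = x) →
            Settled p f))) ∧
    -- a criterion for all primes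
    (∀ f : ℤ[X], f.Monic → 0 < f.natDegree →
      (∀ t : ℂ, (∀ k : ℤ[X], k.Monic → k ∣ f → Ru (aeval t k)) → ∃ x : ℤ, t = x) →
      ∀ (p : ℕ) [Fact p.Prime], Settled p f) ∧
    -- all but finitely many translates
    (∀ g h : ℤ[X], g.Monic → h.Monic → 0 < g.natDegree → 0 < h.natDegree →
      ∃ c₀ : ℤ, ∀ c : ℤ, c₀ ≤ |c| → ∀ f : ℤ[X], f.Monic → g ∣ f → h + C c ∣ f →
      ∀ (p : ℕ) [Fact p.Prime], Level1 p f = ∅ ∧ IntPts f = ∅) ∧
    (∀ g : ℤ[X], g.Monic → 0 < g.natDegree → ∀ c : ℤ, 3 ≤ |c| → ∀ f : ℤ[X], f.Monic → g ∣ f → g + C c ∣ f →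
      ∀ (p : ℕ) [Fact p.Prime], Level1 p f = ∅ ∧ IntPts f = ∅) ∧
    -- there are infinitely many good primes
    (∀ d N : ℕ, Good d 3 ∧ ∃ p, N < p ∧ p.Prime ∧ Good d p) := by
  have hmon : ∀ (h : ℤ[X]) (c : ℤ), h.Monic → 0 < h.natDegree → (h + C c).Monic := by
    intro h c hh he
    refine hh.add_of_left ?_
    refine lt_of_le_of_lt degree_C_le ?_
    exact natDegree_pos_iff_degree_pos.1 he
  refine ⟨?_, ?_, ?_, ?_, (LevelOneForTheLine.result 1 monic_one).2.2.2.2.2⟩
  · intro f g h hf hg hh hd he hco hgf hhf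
    have hR := Pool.Agent.Helper12.WG.Elim_ne_zero hg hh hd he hco
    have hRd := Pool.Agent.Helper12.WG.Elim_natDegree g h
    have hroot : ∀ (p : ℕ) [Fact p.Prime], ∀ z ∈ Level1 p f,
        aeval z (Pool.Agent.Helper12.WG.Elim g h) = 0 := fun p _ z hz =>
      Pool.Agent.Helper12.WG.level_root hg hh hd hgf hhf hz
    refine ⟨⟨Pool.Agent.Helper12.WG.Elim g h, hR, hRd, fun p _ => ⟨hroot p, fun hz =>
      Pool.Agent.Helper12.WG.settled_of_int hf fun z hz' => hz z (hroot p z hz')⟩⟩, fun p _ => ?_⟩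
    have h1 := Pool.Agent.Helper12.WG.level_finite hR (hroot p)
    refine ⟨⟨h1.1, h1.2.trans hRd⟩, ?_, fun hp => ⟨?_, ?_⟩⟩
    · intro z hz k hk hkf
      obtain ⟨m, h2, h3, h4⟩ := Pool.Agent.Helper12.WG.level_order hR hz (hroot p z hz) hk hkf
      exact ⟨m, h2, h3.trans hRd, h4⟩
    · intro z hz k hk hkf
      exact Pool.Agent.Helper12.WG.level_good hR hRd hp hz (hroot p z hz) hk hkf
    · intro hC
      exact Pool.Agent.Helper12.WG.settled_good hf hg hh hd he hco hgf hhf hp hC
  · intro f hf hd hC p _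
    exact Pool.Agent.Helper12.WG.settled_all hf hd hC
  · intro g h hg hh hd he
    obtain ⟨c₀, hc₀⟩ := Pool.Agent.Helper12.WG.translates (h := h) hg hd
    exact ⟨c₀, fun c hc f hf hgf hhf p _ =>
      Pool.Agent.Helper12.WG.level_empty hf hg (hmon h c hh he) hd hgf hhf (hc₀ c hc)⟩
  · intro g hg hd c hc f hf hgf hhf p _
    exact Pool.Agent.Helper12.WG.level_empty hf hg (hmon g c hg hd) hd hgf hhf
      (Pool.Agent.Helper12.WG.near_translates hc)

end Pool.Agent.Results.MP_fd87b4_nt.TwoMoreComponents
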